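import Mathlib
import Pool.Agent.X1.SchC

/-!
# The number of the denominators with a small product of distances to the nearest integers
-/

set_option autoImplicit false

namespace Pool.Agent.X35.DQ

open Finset Filter
open Pool.Agent.X1.SchP (nd nd_le nd_nonneg nd_le_half nd_pos schmidt sum_bound)

/-- the distance of one coordinate is at least the product -/
theorem prod_le_nd {T : ℕ} (ξ : Fin T → ℝ) (k : ℕ) (i : Fin T) : ∏ l, nd (k * ξ l) ≤ nd (k * ξ i) := by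
  rw [← Finset.mul_prod_erase Finset.univ (fun l => nd (k * ξ l)) (Finset.mem_univ i)]
  have h1 : ∏ l ∈ Finset.univ.erase i, nd (k * ξ l) ≤ 1 :=
    Finset.prod_le_one (fun l _ => nd_nonneg _) (fun l _ => (nd_le_half _).trans (by norm_num))
  have h2 := nd_nonneg (k * ξ i)
  nlinarith

open Classical in
/-- one dyadic block -/
theorem dyad {T : ℕ} (ξ : Fin T → ℝ) (hξ : ∀ i, IsAlgebraic ℚ (ξ i))
    (hind : ∀ (y0 : ℤ) (y : Fin T → ℤ), (y0 : ℝ) + ∑ i, (y i : ℝ) * ξ i = 0 → y0 = 0 ∧ y = 0) (c b ε : ℝ) (hc : 0 < c)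
    (hb0 : 0 ≤ b) (hb1 : b ≤ 1) (hε : 0 < ε) : ∃ C : ℝ, 0 < C ∧ ∀ X : ℕ, 1 ≤ X →
      (((Ioc (X / 2) X).filter fun k : ℕ => ∏ i, nd (k * ξ i) ≤ c * (k : ℝ) ^ (b - 1)).card : ℝ) ≤ C * (X : ℝ) ^ (b + ε) := by
  set ε₁ : ℝ := min 1 (ε / (2 * (T + 1))) with hε₁
  have hε₁0 : 0 < ε₁ := lt_min one_pos (by positivity)
  have hε₁1 : ε₁ ≤ 1 := min_le_left _ _
  have hε₁2 : 2 * ((T + 1) * ε₁) ≤ ε := by
    have h1 : ε₁ ≤ ε / (2 * (T + 1)) := min_le_right _ _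
    rw [le_div_iff₀ (by positivity)] at h1
    linarith
  obtain ⟨cS, hcS, hS⟩ := schmidt ξ hξ hind ε₁ hε₁0 hε₁1
  obtain ⟨C1, hC1, hsum⟩ := sum_bound ξ ε₁ cS hε₁0 hcS hS
  set CB : ℝ := 1 / cS + 2 with hCB
  have hCB0 : 0 < CB := by positivity
  refine ⟨2 ^ T * c * 2 * C1 * CB ^ ((T + 1) * ε₁), by positivity, fun X hX => ?_⟩
  have hX0 : (0 : ℝ) < X := by exact_mod_cast hX
  have hX1 : (1 : ℝ) ≤ X := by exact_mod_cast hX
  set B : ℕ := ⌈(X : ℝ) ^ 2 / cS⌉₊ + 1 with hB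
  have hB1 : 1 ≤ B := by omega
  have hBge : (X : ℝ) ^ 2 / cS ≤ B := by
    rw [hB]
    push_cast
    have := Nat.le_ceil ((X : ℝ) ^ 2 / cS)
    linarith
  have hBle : (B : ℝ) ≤ CB * (X : ℝ) ^ 2 := by
    rw [hB]
    push_cast
    have h1 := Nat.ceil_lt_add_one (show 0 ≤ (X : ℝ) ^ 2 / cS by positivity)
    have h2 : (1 : ℝ) ≤ (X : ℝ) ^ 2 := one_le_pow₀ hX1
    have h3 : CB * (X : ℝ) ^ 2 = (X : ℝ) ^ 2 / cS + 2 * (X : ℝ) ^ 2 := by
      rw [hCB]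
      ring
    rw [h3]
    linarith
  set D : ℝ := c * ((X : ℝ) / 2) ^ (b - 1) with hD
  have hD0 : 0 < D := by positivity
  have hterm : ∀ k ∈ (Ioc (X / 2) X).filter (fun k : ℕ => ∏ i, nd (k * ξ i) ≤ c * (k : ℝ) ^ (b - 1)),
      (1 : ℝ) ≤ D * 2 ^ T * ∏ i, min (B : ℝ) (1 / (2 * nd (k * ξ i))) := by
    intro k hk
    rw [mem_filter, mem_Ioc] at hk
    obtain ⟨⟨hk1, hk2⟩, hk3⟩ := hk
    have hk0 : 1 ≤ k := by omega
    have hkR0 : (0 : ℝ) < k := by exact_mod_cast hk0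
    have hkX : (k : ℝ) ≤ X := by exact_mod_cast hk2
    have hkX2 : (X : ℝ) / 2 ≤ k := by
      have h1 : X ≤ 2 * k := by omega
      have h2 : (X : ℝ) ≤ 2 * k := by exact_mod_cast h1
      linarith
    have hpos : ∀ i, 0 < nd (k * ξ i) := fun i => nd_pos ξ hind k hk0 i
    have hP0 : 0 < ∏ i, nd (k * ξ i) := Finset.prod_pos fun i _ => hpos i
    have hmin : ∀ i, min (B : ℝ) (1 / (2 * nd (k * ξ i))) = 1 / (2 * nd (k * ξ i)) := by
      intro i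
      apply min_eq_right
      refine le_trans ?_ hBge
      rw [div_le_div_iff₀ (by have := hpos i; positivity) hcS]
      have h1 := hS k hk0
      have h2 := prod_le_nd ξ k i
      have h3 : (k : ℝ) ^ (1 + ε₁) ≤ (X : ℝ) ^ 2 := by
        calc (k : ℝ) ^ (1 + ε₁) ≤ (X : ℝ) ^ (1 + ε₁) := Real.rpow_le_rpow hkR0.le hkX (by linarith)
          _ ≤ (X : ℝ) ^ (2 : ℝ) := Real.rpow_le_rpow_of_exponent_le hX1 (by linarith)
          _ = (X : ℝ) ^ 2 := by norm_num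
      have h4 := hpos i
      calc 1 * cS ≤ (k : ℝ) ^ (1 + ε₁) * ∏ l, nd (k * ξ l) := by rw [one_mul]; exact h1
        _ ≤ (X : ℝ) ^ 2 * nd (k * ξ i) := mul_le_mul h3 h2 hP0.le (by positivity)
        _ ≤ (X : ℝ) ^ 2 * (2 * nd (k * ξ i)) := by
            apply mul_le_mul_of_nonneg_left _ (by positivity)
            linarith
    have hprod : ∏ i, min (B : ℝ) (1 / (2 * nd (k * ξ i))) = 1 / (2 ^ T * ∏ i, nd (k * ξ i)) := by
      rw [Finset.prod_congr rfl fun i _ => hmin i, Finset.prod_div_distrib, Finset.prod_const_one, Finset.prod_mul_distrib,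
        Finset.prod_const, Finset.card_univ, Fintype.card_fin]
    rw [hprod]
    have h5 : ∏ i, nd (k * ξ i) ≤ D := by
      refine hk3.trans ?_
      rw [hD]
      apply mul_le_mul_of_nonneg_left _ hc.le
      exact Real.rpow_le_rpow_of_nonpos (by positivity) hkX2 (by linarith)
    have h6 : D * 2 ^ T * (1 / (2 ^ T * ∏ i, nd (k * ξ i))) = D / ∏ i, nd (k * ξ i) := by
      field_simp
    rw [h6, le_div_iff₀ hP0]
    linarith
  have h1 : (((Ioc (X / 2) X).filter fun k : ℕ => ∏ i, nd (k * ξ i) ≤ c * (k : ℝ) ^ (b - 1)).card : ℝ) ≤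
      ∑ k ∈ (Ioc (X / 2) X).filter (fun k : ℕ => ∏ i, nd (k * ξ i) ≤ c * (k : ℝ) ^ (b - 1)),
        D * 2 ^ T * ∏ i, min (B : ℝ) (1 / (2 * nd (k * ξ i))) := by
    calc (((Ioc (X / 2) X).filter fun k : ℕ => ∏ i, nd (k * ξ i) ≤ c * (k : ℝ) ^ (b - 1)).card : ℝ)
        = ∑ k ∈ (Ioc (X / 2) X).filter (fun k : ℕ => ∏ i, nd (k * ξ i) ≤ c * (k : ℝ) ^ (b - 1)), (1 : ℝ) := by
          rw [sum_const, nsmul_eq_mul, mul_one]
      _ ≤ _ := sum_le_sum hterm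
  refine h1.trans ?_
  rw [← mul_sum]
  have h2 : ∑ k ∈ (Ioc (X / 2) X).filter (fun k : ℕ => ∏ i, nd (k * ξ i) ≤ c * (k : ℝ) ^ (b - 1)),
      ∏ i, min (B : ℝ) (1 / (2 * nd (k * ξ i))) ≤ ∑ k ∈ Icc 1 X, ∏ i, min (B : ℝ) (1 / (2 * nd (k * ξ i))) := by
    apply sum_le_sum_of_subset_of_nonneg
    · intro k hk
      rw [mem_filter, mem_Ioc] at hk
      rw [mem_Icc]
      omega
    · intro k _ _
      apply Finset.prod_nonneg
      intro i _
      apply le_min (Nat.cast_nonneg _)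
      have := nd_nonneg (k * ξ i)
      positivity
  have h3 := hsum X B hB1
  calc D * 2 ^ T * ∑ k ∈ (Ioc (X / 2) X).filter (fun k : ℕ => ∏ i, nd (k * ξ i) ≤ c * (k : ℝ) ^ (b - 1)),
        ∏ i, min (B : ℝ) (1 / (2 * nd (k * ξ i)))
      ≤ D * 2 ^ T * (C1 * X * (B : ℝ) ^ ((T + 1) * ε₁)) := mul_le_mul_of_nonneg_left (h2.trans h3) (by positivity)
    _ ≤ D * 2 ^ T * (C1 * X * (CB ^ ((T + 1) * ε₁) * (X : ℝ) ^ ε)) := by
        apply mul_le_mul_of_nonneg_left _ (by positivity)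
        apply mul_le_mul_of_nonneg_left _ (by positivity)
        calc (B : ℝ) ^ ((T + 1) * ε₁) ≤ (CB * (X : ℝ) ^ 2) ^ ((T + 1) * ε₁) := Real.rpow_le_rpow (Nat.cast_nonneg _) hBle (by positivity)
          _ = CB ^ ((T + 1) * ε₁) * (X : ℝ) ^ (2 * ((T + 1) * ε₁)) := by
              rw [Real.mul_rpow hCB0.le (by positivity), ← Real.rpow_natCast (X : ℝ) 2, ← Real.rpow_mul hX0.le]
              norm_num
          _ ≤ CB ^ ((T + 1) * ε₁) * (X : ℝ) ^ ε := by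
              apply mul_le_mul_of_nonneg_left _ (by positivity)
              exact Real.rpow_le_rpow_of_exponent_le hX1 hε₁2
    _ = 2 ^ T * c * C1 * CB ^ ((T + 1) * ε₁) * ((((X : ℝ) / 2) ^ (b - 1)) * X * (X : ℝ) ^ ε) := by
        rw [hD]
        ring
    _ ≤ 2 ^ T * c * C1 * CB ^ ((T + 1) * ε₁) * (2 * (X : ℝ) ^ (b + ε)) := by
        apply mul_le_mul_of_nonneg_left _ (by positivity)
        have h4 : ((X : ℝ) / 2) ^ (b - 1) = (X : ℝ) ^ (b - 1) * (2 : ℝ) ^ (1 - b) := by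
          rw [Real.div_rpow hX0.le (by norm_num), div_eq_mul_inv, ← Real.rpow_neg (by norm_num)]
          congr 2
          ring
        have h5 : (2 : ℝ) ^ (1 - b) ≤ 2 := by
          calc (2 : ℝ) ^ (1 - b) ≤ (2 : ℝ) ^ (1 : ℝ) := Real.rpow_le_rpow_of_exponent_le (by norm_num) (by linarith)
            _ = 2 := Real.rpow_one _
        have h6 : (X : ℝ) ^ (b - 1) * X * (X : ℝ) ^ ε = (X : ℝ) ^ (b + ε) := by
          nth_rewrite 2 [← Real.rpow_one (X : ℝ)]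
          rw [← Real.rpow_add hX0, ← Real.rpow_add hX0]
          congr 1
          ring
        calc ((X : ℝ) / 2) ^ (b - 1) * X * (X : ℝ) ^ ε = (2 : ℝ) ^ (1 - b) * ((X : ℝ) ^ (b - 1) * X * (X : ℝ) ^ ε) := by
              rw [h4]
              ring
          _ = (2 : ℝ) ^ (1 - b) * (X : ℝ) ^ (b + ε) := by rw [h6]
          _ ≤ 2 * (X : ℝ) ^ (b + ε) := mul_le_mul_of_nonneg_right h5 (by positivity)
    _ = _ := by ring

open Classical in
/-- **the number of the denominators with a small product** -/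
theorem count {T : ℕ} (ξ : Fin T → ℝ) (hξ : ∀ i, IsAlgebraic ℚ (ξ i))
    (hind : ∀ (y0 : ℤ) (y : Fin T → ℤ), (y0 : ℝ) + ∑ i, (y i : ℝ) * ξ i = 0 → y0 = 0 ∧ y = 0) (c b ε : ℝ) (hc : 0 < c)
    (hb0 : 0 ≤ b) (hb1 : b ≤ 1) (hε : 0 < ε) : ∃ C : ℝ, 0 < C ∧ ∀ X : ℕ,
      (((Ioc 0 X).filter fun k : ℕ => ∏ i, nd (k * ξ i) ≤ c * (k : ℝ) ^ (b - 1)).card : ℝ) ≤ C * (X : ℝ) ^ (b + ε) := by
  obtain ⟨C2, hC2, h⟩ := dyad ξ hξ hind c b ε hc hb0 hb1 hε
  set q : ℝ := (2 : ℝ) ^ (-(b + ε)) with hq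
  have hq0 : 0 < q := by positivity
  have hq1 : q < 1 := Real.rpow_lt_one_of_one_lt_of_neg (by norm_num) (by linarith)
  refine ⟨C2 / (1 - q), div_pos hC2 (by linarith), fun X => ?_⟩
  induction X using Nat.strong_induction_on with
  | _ X ih =>
    rcases Nat.eq_zero_or_pos X with rfl | hX
    · simp only [Ioc_self, filter_empty, card_empty, Nat.cast_zero]
      rw [Real.zero_rpow (by linarith), mul_zero]
    · have hX0 : (0 : ℝ) < X := by exact_mod_cast hX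
      have h1 := ih (X / 2) (by omega)
      have h2 := h X hX
      have hsub : (Ioc 0 X).filter (fun k : ℕ => ∏ i, nd (k * ξ i) ≤ c * (k : ℝ) ^ (b - 1)) ⊆
          ((Ioc 0 (X / 2)).filter fun k : ℕ => ∏ i, nd (k * ξ i) ≤ c * (k : ℝ) ^ (b - 1)) ∪
          ((Ioc (X / 2) X).filter fun k : ℕ => ∏ i, nd (k * ξ i) ≤ c * (k : ℝ) ^ (b - 1)) := by
        intro k hk
        rw [mem_filter, mem_Ioc] at hk
        rw [mem_union, mem_filter, mem_filter, mem_Ioc, mem_Ioc]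
        rcases Nat.lt_or_ge (X / 2) k with h3 | h3
        · exact Or.inr ⟨⟨h3, hk.1.2⟩, hk.2⟩
        · exact Or.inl ⟨⟨hk.1.1, h3⟩, hk.2⟩
      have h3 : (((Ioc 0 X).filter fun k : ℕ => ∏ i, nd (k * ξ i) ≤ c * (k : ℝ) ^ (b - 1)).card : ℝ) ≤
          (((Ioc 0 (X / 2)).filter fun k : ℕ => ∏ i, nd (k * ξ i) ≤ c * (k : ℝ) ^ (b - 1)).card : ℝ) +
          (((Ioc (X / 2) X).filter fun k : ℕ => ∏ i, nd (k * ξ i) ≤ c * (k : ℝ) ^ (b - 1)).card : ℝ) := by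
        exact_mod_cast (card_le_card hsub).trans (card_union_le _ _)
      have h4 : ((X / 2 : ℕ) : ℝ) ^ (b + ε) ≤ q * (X : ℝ) ^ (b + ε) := by
        have h5 : ((X / 2 : ℕ) : ℝ) ≤ X / 2 := Nat.cast_div_le
        calc ((X / 2 : ℕ) : ℝ) ^ (b + ε) ≤ ((X : ℝ) / 2) ^ (b + ε) := Real.rpow_le_rpow (Nat.cast_nonneg _) h5 (by linarith)
          _ = q * (X : ℝ) ^ (b + ε) := by
              rw [Real.div_rpow hX0.le (by norm_num), hq, Real.rpow_neg (by norm_num), div_eq_inv_mul]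
      have h1q : 0 < 1 - q := by linarith
      calc (((Ioc 0 X).filter fun k : ℕ => ∏ i, nd (k * ξ i) ≤ c * (k : ℝ) ^ (b - 1)).card : ℝ)
          ≤ C2 / (1 - q) * ((X / 2 : ℕ) : ℝ) ^ (b + ε) + C2 * (X : ℝ) ^ (b + ε) := h3.trans (add_le_add h1 h2)
        _ ≤ C2 / (1 - q) * (q * (X : ℝ) ^ (b + ε)) + C2 * (X : ℝ) ^ (b + ε) := by
            have : 0 ≤ C2 / (1 - q) := by positivity
            have := mul_le_mul_of_nonneg_left h4 this
            linarith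
        _ = C2 / (1 - q) * (X : ℝ) ^ (b + ε) := by
            field_simp
            ring

end Pool.Agent.X35.DQ
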